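import Pool.Agent.W593.Cusp.Geo

set_option autoImplicit false

open Set Filter Topology MeasureTheory
open scoped ContDiff

namespace Pool.Agent.W593.Cusp

theorem hasCusp_PD {c : ℝ} (hc : 0 < c) : HasCusp PD (rho c) := by
  refine ⟨1, c, cov, one_pos, hc, ?_, ?_⟩
  · have : ContDiff ℝ ∞ cov := by
      unfold cov
      fun_prop
    exact this.contDiffOn
  · intro z hz
    have hz0 : 0 < z.im := by linarith
    refine ⟨cov_mem hz0, ?_, ?_⟩
    · unfold cov
      have : (2 * Real.pi * Complex.I * (z + 1) : ℂ) =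
          2 * Real.pi * Complex.I * z + 2 * Real.pi * Complex.I := by ring
      rw [this, Complex.exp_periodic]
    · intro v
      have h1 : HasDerivAt cov (cov z * (2 * Real.pi * Complex.I)) z := by
        unfold cov
        have h2 : HasDerivAt (fun w : ℂ => 2 * Real.pi * Complex.I * w)
            (2 * Real.pi * Complex.I) z := by
          simpa using (hasDerivAt_id z).const_mul (2 * Real.pi * Complex.I : ℂ)
        exact h2.cexp
      have h3 := (h1.hasFDerivAt.restrictScalars ℝ).fderiv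
      rw [h3]
      have h4 : ‖((ContinuousLinearMap.toSpanSingleton ℂ (cov z * (2 * Real.pi * Complex.I))).restrictScalars ℝ) v‖
          = ‖v‖ * (‖cov z‖ * (2 * Real.pi)) := by
        simp [abs_of_pos Real.pi_pos]
      rw [h4]
      unfold rho
      rw [norm_cov, Real.log_exp]
      have e1 := (Real.exp_pos (-(2 * Real.pi * z.im))).ne'
      have e2 := Real.pi_pos.ne'
      have e3 := hz0.ne'
      field_simp

/-- estimates along a curve -/
theorem curve_est {c : ℝ} (hc : 0 < c) {γ : ℝ → ℂ} (hγ : ContDiff ℝ 1 γ)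
    (hmem : ∀ t ∈ Icc (0:ℝ) 1, γ t ∈ PD) {s : ℝ} (hs : s ∈ Icc (0:ℝ) 1) :
    |Real.log (-Real.log ‖γ s‖) - Real.log (-Real.log ‖γ 0‖)| ≤ length (rho c) γ 0 1 / c := by
  have hd : ∀ t, HasDerivAt γ (deriv γ t) t := fun t =>
    (hγ.differentiable (by simp) t).hasDerivAt
  have hcd : Continuous (deriv γ) := hγ.continuous_deriv (by simp)
  have hcont : ContinuousOn (fun t => rho c (γ t) * ‖deriv γ t‖) (Icc 0 1) := by
    apply ContinuousOn.mul
    · exact (contDiffOn_rho c).continuousOn.comp hγ.continuous.continuousOn hmem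
    · exact hcd.norm.continuousOn
  have hsub : uIcc 0 s ⊆ Icc (0:ℝ) 1 := by
    rw [uIcc_of_le hs.1]
    exact Icc_subset_Icc le_rfl hs.2
  let g' : ℝ → ℝ := fun t => (deriv γ t / γ t).re / Real.log ‖γ t‖
  have hg : ∀ t ∈ uIcc 0 s, HasDerivAt (fun t => Real.log (-Real.log ‖γ t‖)) (g' t) t := by
    intro t ht
    have hm := hmem t (hsub ht)
    have hL := log_neg_of_PD hm
    have h1 := (hasFDerivAt_lognorm (ne_zero_of_PD hm)).comp_hasDerivAt t (hd t)
    have h2 : HasDerivAt (fun t => Real.log ‖γ t‖) (deriv γ t / γ t).re t := by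
      refine h1.congr_deriv ?_
      simp only [ContinuousLinearMap.comp_apply, smul_apply, smul_eq_mul,
        ContinuousLinearMap.id_apply, Complex.reCLM_apply]
      congr 1
      ring
    have h3 := h2.neg.log (by
      show -Real.log ‖γ t‖ ≠ 0
      linarith)
    refine h3.congr_deriv ?_
    show -(deriv γ t / γ t).re / (-Real.log ‖γ t‖) = _
    rw [neg_div_neg_eq]
  have hg'cont : ContinuousOn g' (uIcc 0 s) := by
    have hm : ∀ t ∈ uIcc 0 s, γ t ≠ 0 := fun t ht => ne_zero_of_PD (hmem t (hsub ht))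
    apply ContinuousOn.div
    · apply Complex.continuous_re.comp_continuousOn
      exact hcd.continuousOn.div hγ.continuous.continuousOn hm
    · apply ContinuousOn.log hγ.continuous.norm.continuousOn
      intro t ht
      exact norm_ne_zero_iff.2 (hm t ht)
    · intro t ht
      exact (log_neg_of_PD (hmem t (hsub ht))).ne
  have hint := intervalIntegral.integral_eq_sub_of_hasDerivAt hg hg'cont.intervalIntegrable
  rw [← hint]
  have hI1 : IntervalIntegrable (fun t => rho c (γ t) * ‖deriv γ t‖) volume 0 s :=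
    (hcont.mono hsub).intervalIntegrable
  have hI2 : IntervalIntegrable (fun t => rho c (γ t) * ‖deriv γ t‖) volume s 1 := by
    apply ContinuousOn.intervalIntegrable
    apply hcont.mono
    rw [uIcc_of_le hs.2]
    exact Icc_subset_Icc hs.1 le_rfl
  have h1 : |∫ t in (0:ℝ)..s, g' t| ≤ ∫ t in (0:ℝ)..s, (rho c (γ t) * ‖deriv γ t‖) / c := by
    rw [← Real.norm_eq_abs]
    apply intervalIntegral.norm_integral_le_of_norm_le hs.1
    · filter_upwards with t ht
      have ht' : t ∈ Icc (0:ℝ) 1 := ⟨ht.1.le, ht.2.trans hs.2⟩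
      have hm := hmem t ht'
      have hL := log_neg_of_PD hm
      have hn := hm.1
      simp only [g', rho]
      rw [norm_div, Real.norm_eq_abs, Real.norm_eq_abs, abs_of_neg hL]
      have h3 : |(deriv γ t / γ t).re| ≤ ‖deriv γ t‖ / ‖γ t‖ := by
        rw [← norm_div]; exact Complex.abs_re_le_norm _
      have hL' : 0 < -Real.log ‖γ t‖ := by linarith
      calc |(deriv γ t / γ t).re| / -Real.log ‖γ t‖ ≤
          (‖deriv γ t‖ / ‖γ t‖) / -Real.log ‖γ t‖ := by gcongr
        _ = c / (‖γ t‖ * -Real.log ‖γ t‖) * ‖deriv γ t‖ / c := by field_simp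
    · exact hI1.div_const c
  refine h1.trans ?_
  rw [intervalIntegral.integral_div]
  apply div_le_div_of_nonneg_right _ hc.le
  unfold length
  rw [← intervalIntegral.integral_add_adjacent_intervals hI1 hI2]
  have h2 : 0 ≤ ∫ t in s..1, rho c (γ t) * ‖deriv γ t‖ := by
    apply intervalIntegral.integral_nonneg hs.2
    intro t ht
    have hm := hmem t ⟨hs.1.trans ht.1, ht.2⟩
    exact mul_nonneg (rho_pos hc hm).le (norm_nonneg _)
  linarith

theorem curve_est2 {c m : ℝ} (hm0 : 0 < m) {γ : ℝ → ℂ} (hγ : ContDiff ℝ 1 γ)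
    (hmem : ∀ t ∈ Icc (0:ℝ) 1, γ t ∈ PD) (hm : ∀ t ∈ Icc (0:ℝ) 1, m ≤ rho c (γ t)) :
    ‖γ 1 - γ 0‖ ≤ length (rho c) γ 0 1 / m := by
  have hd : ∀ t, HasDerivAt γ (deriv γ t) t := fun t =>
    (hγ.differentiable (by simp) t).hasDerivAt
  have hcd : Continuous (deriv γ) := hγ.continuous_deriv (by simp)
  have hcont : ContinuousOn (fun t => rho c (γ t) * ‖deriv γ t‖) (Icc 0 1) := by
    apply ContinuousOn.mul
    · exact (contDiffOn_rho c).continuousOn.comp hγ.continuous.continuousOn hmem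
    · exact hcd.norm.continuousOn
  have hint := intervalIntegral.integral_eq_sub_of_hasDerivAt (a := 0) (b := 1)
    (fun t _ => hd t) (hcd.intervalIntegrable 0 1)
  rw [← hint]
  have hI1 : IntervalIntegrable (fun t => rho c (γ t) * ‖deriv γ t‖) volume 0 1 := by
    apply ContinuousOn.intervalIntegrable
    rw [uIcc_of_le zero_le_one]
    exact hcont
  have h1 : ‖∫ t in (0:ℝ)..1, deriv γ t‖ ≤ ∫ t in (0:ℝ)..1, (rho c (γ t) * ‖deriv γ t‖) / m := by
    apply intervalIntegral.norm_integral_le_of_norm_le zero_le_one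
    · filter_upwards with t ht
      have h2 := hm t ⟨ht.1.le, ht.2⟩
      rw [le_div_iff₀ hm0]
      nlinarith [norm_nonneg (deriv γ t)]
    · exact hI1.div_const m
  rwa [intervalIntegral.integral_div] at h1

theorem complete_PD {c : ℝ} (hc : 0 < c) : IsCompleteSurface PD (rho c) := by
  intro u hu hcauchy
  obtain ⟨n0, hn0⟩ := hcauchy c hc
  let H : ℂ → ℝ := fun z => Real.log (-Real.log ‖z‖)
  let h0 : ℝ := H (u n0)
  have hbase : ∀ n ≥ n0, |H (u n) - h0| ≤ 1 := by
    intro n hn
    obtain ⟨γ, g1, g2, g3, g4, g5⟩ := hn0 n0 le_rfl n hn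
    have := curve_est hc g1 g2 (right_mem_Icc.2 zero_le_one)
    rw [g3, g4] at this
    refine this.trans ?_
    rw [div_le_one hc]
    exact g5.le
  -- region
  have hreg : ∀ z ∈ PD, |H z - h0| ≤ 2 →
      Real.exp (-Real.exp (h0 + 2)) ≤ ‖z‖ ∧ ‖z‖ ≤ Real.exp (-Real.exp (h0 - 2)) ∧
      c / Real.exp (h0 + 2) ≤ rho c z := by
    intro z hz hzz
    have hL := log_neg_of_PD hz
    have hL' : 0 < -Real.log ‖z‖ := by linarith
    obtain ⟨h1, h2⟩ := abs_le.1 hzz
    have e1 : -Real.log ‖z‖ ≤ Real.exp (h0 + 2) := by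
      rw [← Real.exp_log hL']
      apply Real.exp_le_exp.2
      simp only [H] at h2
      linarith
    have e2 : Real.exp (h0 - 2) ≤ -Real.log ‖z‖ := by
      rw [← Real.exp_log hL']
      apply Real.exp_le_exp.2
      simp only [H] at h1
      linarith
    have e3 : ‖z‖ = Real.exp (Real.log ‖z‖) := (Real.exp_log hz.1).symm
    refine ⟨?_, ?_, ?_⟩
    · rw [e3]; apply Real.exp_le_exp.2; linarith
    · rw [e3]; apply Real.exp_le_exp.2; linarith
    · unfold rho
      apply div_le_div_of_nonneg_left hc.le (mul_pos hz.1 hL')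
      calc ‖z‖ * -Real.log ‖z‖ ≤ 1 * Real.exp (h0 + 2) := by
            apply mul_le_mul hz.2.le e1 hL'.le zero_le_one
        _ = Real.exp (h0 + 2) := one_mul _
  let m : ℝ := c / Real.exp (h0 + 2)
  have hm : 0 < m := div_pos hc (Real.exp_pos _)
  have hC : CauchySeq u := by
    rw [Metric.cauchySeq_iff']
    intro ε hε
    obtain ⟨n1, hn1⟩ := hcauchy (min c (ε * m)) (lt_min hc (mul_pos hε hm))
    refine ⟨max n0 n1, fun n hn => ?_⟩
    obtain ⟨γ, g1, g2, g3, g4, g5⟩ := hn1 (max n0 n1) (le_max_right _ _) n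
      ((le_max_right _ _).trans hn)
    have hb := hbase (max n0 n1) (le_max_left _ _)
    have hall : ∀ t ∈ Icc (0:ℝ) 1, m ≤ rho c (γ t) := by
      intro t ht
      have h1 := curve_est hc g1 g2 ht
      have h2 : length (rho c) γ 0 1 / c ≤ 1 := by
        rw [div_le_one hc]
        exact (g5.trans_le (min_le_left _ _)).le
      refine (hreg (γ t) (g2 t ht) ?_).2.2
      rw [g3] at h1
      have h3 : |H (γ t) - h0| ≤ |H (γ t) - H (u (max n0 n1))| + |H (u (max n0 n1)) - h0| :=
        abs_sub_le _ _ _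
      have h4 : |H (γ t) - H (u (max n0 n1))| ≤ 1 := h1.trans h2
      linarith
    have h1 := curve_est2 hm g1 g2 hall
    rw [g3, g4] at h1
    rw [dist_eq_norm]
    refine h1.trans_lt ?_
    rw [div_lt_iff₀ hm]
    exact g5.trans_le (min_le_right _ _)
  obtain ⟨p, hp⟩ := cauchySeq_tendsto_of_complete hC
  refine ⟨p, ?_, hp⟩
  have hnorm : Tendsto (fun n => ‖u n‖) atTop (𝓝 ‖p‖) := hp.norm
  have hlo : Real.exp (-Real.exp (h0 + 2)) ≤ ‖p‖ := by
    apply ge_of_tendsto hnorm
    filter_upwards [eventually_ge_atTop n0] with n hn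
    exact (hreg (u n) (hu n) ((hbase n hn).trans (by norm_num))).1
  have hhi : ‖p‖ ≤ Real.exp (-Real.exp (h0 - 2)) := by
    apply le_of_tendsto hnorm
    filter_upwards [eventually_ge_atTop n0] with n hn
    exact (hreg (u n) (hu n) ((hbase n hn).trans (by norm_num))).2.1
  exact ⟨(Real.exp_pos _).trans_le hlo, hhi.trans_lt (by
    rw [Real.exp_lt_one_iff]
    have := Real.exp_pos (h0 - 2)
    linarith)⟩

end Pool.Agent.W593.Cusp
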