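import Mathlib

set_option autoImplicit false

/-!
# Third fundamental forms of convex surfaces in hyperbolic space: definitions

Hyperbolic 3-space is the hyperboloid model in Minkowski space `ℝ^{3,1}`.  A Riemannian surface of
genus zero is given as a planar domain `U ⊆ ℂ` with a conformal metric `ρ² |dz|²`.
-/

open Set Filter Topology
open scoped ContDiff

namespace Pool.Agent.W593.Cusp

/-- The Minkowski product of `ℝ^{3,1}`. -/
def mink (x y : Fin 4 → ℝ) : ℝ := x 1 * y 1 + x 2 * y 2 + x 3 * y 3 - x 0 * y 0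

/-- Hyperbolic 3-space `ℍ³` (hyperboloid model). -/
def H3 : Set (Fin 4 → ℝ) := {x | mink x x = -1 ∧ 0 < x 0}

/-- The set `C ⊆ ℍ³` is (geodesically) convex: the geodesic segment between two points `x`, `y` of
`ℍ³` consists of the points of `ℍ³` of the form `a x + b y` with `a, b ≥ 0`. -/
def HConvex (C : Set (Fin 4 → ℝ)) : Prop :=
  C ⊆ H3 ∧ ∀ x ∈ C, ∀ y ∈ C, ∀ a b : ℝ, 0 ≤ a → 0 ≤ b → a • x + b • y ∈ H3 → a • x + b • y ∈ C

/-- `(U, ρ² |dz|²)` is a connected Riemannian surface of genus zero: `U` is a nonempty connected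
open subset of the plane and `ρ` is smooth and positive on `U`. -/
structure IsPlanarSurface (U : Set ℂ) (ρ : ℂ → ℝ) : Prop where
  isOpen : IsOpen U
  isConnected : IsConnected U
  smooth : ContDiffOn ℝ ∞ ρ U
  pos : ∀ z ∈ U, 0 < ρ z

/-- The Euclidean Laplacian `f_xx + f_yy`. -/
noncomputable def lap (f : ℂ → ℝ) (z : ℂ) : ℝ :=
  fderiv ℝ (fun w => fderiv ℝ f w 1) z 1 +
    fderiv ℝ (fun w => fderiv ℝ f w Complex.I) z Complex.I

/-- The Gauss curvature `-Δ(log ρ)/ρ²` of the metric `ρ² |dz|²`. -/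
noncomputable def curvature (ρ : ℂ → ℝ) (z : ℂ) : ℝ :=
  - lap (fun w => Real.log (ρ w)) z / ρ z ^ 2

/-- The length of the curve `γ` between the times `a` and `b`, for the metric `ρ² |dz|²`. -/
noncomputable def length (ρ : ℂ → ℝ) (γ : ℝ → ℂ) (a b : ℝ) : ℝ :=
  ∫ t in a..b, ρ (γ t) * ‖deriv γ t‖

/-- The Riemannian distance between `p` and `q` in `(U, ρ² |dz|²)` is less than `ε`: they are joined
by a curve of class `C¹` in `U` of length less than `ε`. -/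
def DistLt (U : Set ℂ) (ρ : ℂ → ℝ) (p q : ℂ) (ε : ℝ) : Prop :=
  ∃ γ : ℝ → ℂ, ContDiff ℝ 1 γ ∧ (∀ t ∈ Icc (0:ℝ) 1, γ t ∈ U) ∧ γ 0 = p ∧ γ 1 = q ∧
    length ρ γ 0 1 < ε

/-- The Riemannian surface `(U, ρ² |dz|²)` is complete: every sequence of points of `U` which is a
Cauchy sequence for the Riemannian distance converges to a point of `U`. -/
def IsCompleteSurface (U : Set ℂ) (ρ : ℂ → ℝ) : Prop :=
  ∀ u : ℕ → ℂ, (∀ n, u n ∈ U) →
    (∀ ε > 0, ∃ n₀ : ℕ, ∀ m ≥ n₀, ∀ n ≥ n₀, DistLt U ρ (u m) (u n) ε) →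
    ∃ p ∈ U, Tendsto u atTop (𝓝 p)

/-- `γ` is a closed geodesic of `(U, ρ² |dz|²)`, of period `T`: it is a non-constant closed curve
satisfying the geodesic equation `γ'' = -(φ_x - i φ_y) γ'²`, where `φ = log ρ`. -/
structure IsClosedGeodesic (U : Set ℂ) (ρ : ℂ → ℝ) (γ : ℝ → ℂ) (T : ℝ) : Prop where
  period_pos : 0 < T
  periodic : ∀ t, γ (t + T) = γ t
  mem : ∀ t, γ t ∈ U
  smooth : ContDiff ℝ ∞ γ
  regular : ∀ t, deriv γ t ≠ 0
  geodesic : ∀ t, deriv (deriv γ) t =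
    -(((fderiv ℝ (fun w => Real.log (ρ w)) (γ t) 1 : ℝ) : ℂ) -
      Complex.I * ((fderiv ℝ (fun w => Real.log (ρ w)) (γ t) Complex.I : ℝ) : ℂ)) *
      deriv γ t ^ 2

/-- The surface `(U, ρ² |dz|²)` has a cusp: for some `a, c > 0` there is a smooth local isometry into
it from the cusp `{Im z > a} / (z ∼ z + 1)` with the metric `c² |dz|² / (Im z)²` of curvature
`-1 / c²`. -/
def HasCusp (U : Set ℂ) (ρ : ℂ → ℝ) : Prop :=
  ∃ (a c : ℝ) (F : ℂ → ℂ), 0 < a ∧ 0 < c ∧ ContDiffOn ℝ ∞ F {z | a < z.im} ∧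
    ∀ z : ℂ, a < z.im → F z ∈ U ∧ F (z + 1) = F z ∧
      ∀ v : ℂ, ρ (F z) * ‖fderiv ℝ F z v‖ = c / z.im * ‖v‖

/-- `(U, ρ² |dz|²)` is isometric to a smooth surface contained in the boundary of a closed convex
subset `C` of `ℍ³`, equipped with its third fundamental form `III(v, v) = ⟨dN(v), dN(v)⟩`.  Here
`X` is the immersion of the surface in `ℍ³` and `N` is its outward unit normal: `N z` is orthogonal
to the surface at `X z`, of norm one, and `C` lies in the half-space `{⟨·, N z⟩ ≤ 0}` of `ℍ³`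
bounded by the tangent plane of the surface at `X z`. -/
def IsThirdFundamentalForm (U : Set ℂ) (ρ : ℂ → ℝ) : Prop :=
  ∃ (C : Set (Fin 4 → ℝ)) (X N : ℂ → Fin 4 → ℝ), HConvex C ∧ IsClosed C ∧
    ContDiffOn ℝ ∞ X U ∧ ContDiffOn ℝ ∞ N U ∧
    ∀ z ∈ U, X z ∈ C ∧ Function.Injective (fderiv ℝ X z) ∧
      mink (N z) (N z) = 1 ∧ mink (X z) (N z) = 0 ∧
      (∀ v : ℂ, mink (fderiv ℝ X z v) (N z) = 0) ∧
      (∀ p ∈ C, mink p (N z) ≤ 0) ∧
      ∀ v : ℂ, mink (fderiv ℝ N z v) (fderiv ℝ N z v) = (ρ z * ‖v‖) ^ 2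

end Pool.Agent.W593.Cusp
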