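import Pool.Agent.W593.Cusp.NoCusp

set_option autoImplicit false

open Set Filter Topology
open scoped ContDiff

namespace Pool.Agent.W593.Cusp

/-- the punctured unit disc -/
def PD : Set ℂ := {z | 0 < ‖z‖ ∧ ‖z‖ < 1}

/-- density of the metric with one cusp and one funnel on the punctured disc -/
noncomputable def rho (c : ℝ) (z : ℂ) : ℝ := c / (‖z‖ * (-Real.log ‖z‖))

theorem isOpen_PD : IsOpen PD :=
  (isOpen_lt continuous_const continuous_norm).inter (isOpen_lt continuous_norm continuous_const)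

theorem ne_zero_of_PD {z : ℂ} (hz : z ∈ PD) : z ≠ 0 := norm_pos_iff.1 hz.1

theorem log_neg_of_PD {z : ℂ} (hz : z ∈ PD) : Real.log ‖z‖ < 0 := Real.log_neg hz.1 hz.2

/-- the covering by the upper half plane -/
noncomputable def cov (z : ℂ) : ℂ := Complex.exp (2 * Real.pi * Complex.I * z)

theorem norm_cov (z : ℂ) : ‖cov z‖ = Real.exp (-(2 * Real.pi * z.im)) := by
  unfold cov
  rw [Complex.norm_exp]
  congr 1
  simp

theorem cov_mem {z : ℂ} (hz : 0 < z.im) : cov z ∈ PD := by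
  constructor
  · rw [norm_cov]; exact Real.exp_pos _
  · rw [norm_cov, Real.exp_lt_one_iff]
    have := Real.pi_pos
    have : 0 < 2 * Real.pi * z.im := by positivity
    linarith

theorem cov_surj {w : ℂ} (hw : w ∈ PD) : ∃ z : ℂ, 0 < z.im ∧ cov z = w := by
  have h2 : (2 * Real.pi * Complex.I : ℂ) ≠ 0 := Complex.two_pi_I_ne_zero
  have hc : cov (Complex.log w / (2 * Real.pi * Complex.I)) = w := by
    unfold cov
    rw [mul_div_cancel₀ _ h2]
    exact Complex.exp_log (ne_zero_of_PD hw)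
  refine ⟨Complex.log w / (2 * Real.pi * Complex.I), ?_, hc⟩
  have h1 := norm_cov (Complex.log w / (2 * Real.pi * Complex.I))
  rw [hc] at h1
  have h3 := hw.2
  rw [h1, Real.exp_lt_one_iff] at h3
  have := Real.pi_pos
  by_contra h
  push Not at h
  have : 2 * Real.pi * (Complex.log w / (2 * Real.pi * Complex.I)).im ≤ 0 :=
    mul_nonpos_of_nonneg_of_nonpos (by positivity) h
  linarith

theorem isConnected_PD : IsConnected PD := by
  have himg : PD = cov '' {z : ℂ | 0 < z.im} := by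
    ext w
    constructor
    · intro hw
      obtain ⟨z, hz, rfl⟩ := cov_surj hw
      exact ⟨z, hz, rfl⟩
    · rintro ⟨z, hz, rfl⟩
      exact cov_mem hz
  rw [himg]
  have hconv : Convex ℝ {z : ℂ | 0 < z.im} := convex_halfSpace_im_gt 0
  have hcont : Continuous cov := by unfold cov; fun_prop
  exact (hconv.isConnected ⟨Complex.I, by simp⟩).image _ hcont.continuousOn

theorem rho_pos {c : ℝ} (hc : 0 < c) {z : ℂ} (hz : z ∈ PD) : 0 < rho c z := by
  unfold rho
  have h1 := hz.1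
  have h2 := log_neg_of_PD hz
  have : 0 < -Real.log ‖z‖ := by linarith
  positivity

theorem contDiffAt_lognorm {z : ℂ} (hz : z ≠ 0) : ContDiffAt ℝ ∞ (fun w : ℂ => Real.log ‖w‖) z := by
  have h1 : ContDiffAt ℝ ∞ (fun w : ℂ => ‖w‖) z := contDiffAt_norm ℝ hz
  exact h1.log (norm_ne_zero_iff.2 hz)

theorem contDiffOn_rho (c : ℝ) : ContDiffOn ℝ ∞ (rho c) PD := by
  intro z hz
  have hz0 := ne_zero_of_PD hz
  have h1 : ContDiffAt ℝ ∞ (fun w : ℂ => ‖w‖) z := contDiffAt_norm ℝ hz0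
  have h2 := contDiffAt_lognorm hz0
  have h3 := log_neg_of_PD hz
  apply ContDiffAt.contDiffWithinAt
  unfold rho
  apply ContDiffAt.div contDiffAt_const (h1.mul h2.neg)
  exact mul_ne_zero (norm_ne_zero_iff.2 hz0) (by linarith)

theorem planar_PD {c : ℝ} (hc : 0 < c) : IsPlanarSurface PD (rho c) :=
  ⟨isOpen_PD, isConnected_PD, contDiffOn_rho c, fun _ hz => rho_pos hc hz⟩

/-- derivative of `log |w|` -/
theorem hasFDerivAt_lognorm {z : ℂ} (hz : z ≠ 0) : HasFDerivAt (fun w : ℂ => Real.log ‖w‖)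
    (Complex.reCLM.comp ((1 / z) • (ContinuousLinearMap.id ℝ ℂ) : ℂ →L[ℝ] ℂ)) z := by
  have h0 : ‖z‖ ^ 2 ≠ 0 := pow_ne_zero 2 (norm_ne_zero_iff.2 hz)
  have h1 : HasFDerivAt (fun w : ℂ => ‖w‖ ^ 2) _ z := (hasStrictFDerivAt_norm_sq z).hasFDerivAt
  have h2 := (h1.log h0).const_mul (1 / 2 : ℝ)
  have e : (fun w : ℂ => Real.log ‖w‖) = fun w : ℂ => 1 / 2 * Real.log (‖w‖ ^ 2) := by
    funext w
    rw [Real.log_pow]; push_cast; ring
  rw [e]
  refine h2.congr_fderiv ?_
  ext v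
  have hn : ‖z‖ ^ 2 = z.re * z.re + z.im * z.im := by
    rw [← Complex.normSq_eq_norm_sq, Complex.normSq_apply]
  simp only [smul_apply, ContinuousLinearMap.comp_apply,
    innerSL_apply_apply, smul_eq_mul, ContinuousLinearMap.id_apply, Complex.reCLM_apply,
    Complex.inner, hn]
  rw [hn] at h0
  simp
  rw [Complex.normSq_apply]
  field_simp
  ring

/-- the directional derivative `(v / w).re * (-(1 + 1 / log |w|))` of `log ρ` -/
theorem hasFDerivAt_logrho {c : ℝ} (hc : 0 < c) {z : ℂ} (hz : z ∈ PD) :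
    HasFDerivAt (fun w : ℂ => Real.log (rho c w))
      ((-(1 + (Real.log ‖z‖)⁻¹)) • Complex.reCLM.comp
        ((1 / z) • (ContinuousLinearMap.id ℝ ℂ) : ℂ →L[ℝ] ℂ)) z := by
  have hz0 := ne_zero_of_PD hz
  have hL := log_neg_of_PD hz
  have h1 := hasFDerivAt_lognorm hz0
  have h2 := h1.neg.log (x := z) (by
    show -Real.log ‖z‖ ≠ 0
    linarith)
  have h3 := (h1.neg).sub h2
  have h4 := h3.const_add (Real.log c)
  have hev : (fun w : ℂ => Real.log (rho c w)) =ᶠ[𝓝 z]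
      fun w => Real.log c + (-Real.log ‖w‖ - Real.log (-Real.log ‖w‖)) := by
    filter_upwards [isOpen_PD.mem_nhds hz] with w hw
    have a1 := hw.1
    have a2 := log_neg_of_PD hw
    unfold rho
    rw [Real.log_div hc.ne' (mul_pos a1 (by linarith)).ne', Real.log_mul a1.ne' (by linarith)]
    ring
  refine (h4.congr_of_eventuallyEq hev).congr_fderiv ?_
  have e : ((-fun w : ℂ => Real.log ‖w‖) z)⁻¹ = -(Real.log ‖z‖)⁻¹ := by
    show (-Real.log ‖z‖)⁻¹ = _
    rw [inv_neg]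
  rw [e]
  module

theorem fderiv_logrho {c : ℝ} (hc : 0 < c) {z : ℂ} (hz : z ∈ PD) (v : ℂ) :
    fderiv ℝ (fun w : ℂ => Real.log (rho c w)) z v = -(1 + (Real.log ‖z‖)⁻¹) * (v / z).re := by
  rw [(hasFDerivAt_logrho hc hz).fderiv]
  simp only [smul_apply, ContinuousLinearMap.comp_apply, smul_eq_mul,
    ContinuousLinearMap.id_apply, Complex.reCLM_apply]
  congr 2
  ring

/-- the Gauss curvature of the metric is `-1/c²` -/
theorem curvature_rho {c : ℝ} (hc : 0 < c) {z : ℂ} (hz : z ∈ PD) :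
    curvature (rho c) z = -1 / c ^ 2 := by
  have hz0 := ne_zero_of_PD hz
  have hL := log_neg_of_PD hz
  have key : ∀ v : ℂ, fderiv ℝ (fun w => fderiv ℝ (fun w => Real.log (rho c w)) w v) z v =
      (Real.log ‖z‖)⁻¹ ^ 2 * (v / z).re ^ 2 + (1 + (Real.log ‖z‖)⁻¹) * (v ^ 2 / z ^ 2).re := by
    intro v
    have hev : (fun w => fderiv ℝ (fun w => Real.log (rho c w)) w v) =ᶠ[𝓝 z]
        fun w => -(1 + (Real.log ‖w‖)⁻¹) * (v / w).re := by
      filter_upwards [isOpen_PD.mem_nhds hz] with w hw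
      exact fderiv_logrho hc hw v
    rw [hev.fderiv_eq]
    have h1 := (hasDerivAt_inv hL.ne).comp_hasFDerivAt z (hasFDerivAt_lognorm hz0)
    have h2 := (h1.const_add 1).neg
    have h3 : HasFDerivAt (fun w : ℂ => (v / w).re)
        (Complex.reCLM.comp ((-v / z ^ 2) • (ContinuousLinearMap.id ℝ ℂ) : ℂ →L[ℝ] ℂ)) z := by
      have h4 : HasDerivAt (fun w : ℂ => v / w) (-v / z ^ 2) z := by
        exact ((hasDerivAt_const z v).div (hasDerivAt_id z) hz0).congr_deriv (by simp)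
      have h5 := h4.hasFDerivAt.restrictScalars ℝ
      have h6 := Complex.reCLM.hasFDerivAt.comp z h5
      refine h6.congr_fderiv ?_
      ext u
      simp
      ring_nf
    have h7 := h2.mul h3
    have h8 : HasFDerivAt (fun w : ℂ => -(1 + (Real.log ‖w‖)⁻¹) * (v / w).re) _ z := h7
    rw [h8.fderiv]
    simp only [smul_apply, ContinuousLinearMap.comp_apply, smul_eq_mul,
      ContinuousLinearMap.id_apply, Complex.reCLM_apply, add_apply, neg_apply]
    have e1 : (-fun x : ℂ => 1 + ((fun y : ℝ => y⁻¹) ∘ fun w : ℂ => Real.log ‖w‖) x) z =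
      -(1 + (Real.log ‖z‖)⁻¹) := rfl
    have e2 : -v / z ^ 2 * v = -(v ^ 2 / z ^ 2) := by ring
    have e3 : 1 / z * v = v / z := by ring
    rw [e1, e2, e3, Complex.neg_re, inv_pow]
    ring
  unfold curvature lap
  rw [key 1, key Complex.I]
  have e1 : (Complex.I ^ 2 / z ^ 2 : ℂ) = -(1 ^ 2 / z ^ 2) := by rw [Complex.I_sq]; ring
  have e2 : (Complex.I / z).re = -(1 / z).im := by
    have : Complex.I / z = Complex.I * (1 / z) := by ring
    rw [this, Complex.I_mul_re]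
  have e3 : (1 / z).re ^ 2 + (1 / z).im ^ 2 = 1 / ‖z‖ ^ 2 := by
    have := Complex.normSq_apply (1 / z)
    rw [Complex.normSq_eq_norm_sq, norm_div, norm_one, div_pow, one_pow] at this
    rw [this]; ring
  rw [e1, e2, Complex.neg_re]
  have e4 : (Real.log ‖z‖)⁻¹ ^ 2 * (1 / z).re ^ 2 + (1 + (Real.log ‖z‖)⁻¹) * (1 ^ 2 / z ^ 2).re +
      ((Real.log ‖z‖)⁻¹ ^ 2 * (-(1 / z).im) ^ 2 +
        (1 + (Real.log ‖z‖)⁻¹) * -(1 ^ 2 / z ^ 2).re) =
      (Real.log ‖z‖)⁻¹ ^ 2 * ((1 / z).re ^ 2 + (1 / z).im ^ 2) := by ring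
  rw [e4, e3]
  unfold rho
  have hn : ‖z‖ ≠ 0 := norm_ne_zero_iff.2 hz0
  have hL' := hL.ne
  field_simp

end Pool.Agent.W593.Cusp
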