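import Pool.Agent.W593.Cusp.Example

set_option autoImplicit false

open Set Filter Topology
open scoped ContDiff

namespace Pool.Agent.W593.Cusp

/-- The punctured disc has no closed geodesics. -/
theorem no_closed_geodesic {c : ℝ} (hc : 0 < c) {γ : ℝ → ℂ} {T : ℝ}
    (h : IsClosedGeodesic PD (rho c) γ T) : False := by
  have hd1 : ∀ t, HasDerivAt γ (deriv γ t) t := fun t =>
    (h.smooth.differentiable (by simp) t).hasDerivAt
  have hsm : ContDiff ℝ ∞ (deriv γ) := h.smooth.deriv' 
  have hd2 : ∀ t, HasDerivAt (deriv γ) (deriv (deriv γ) t) t := fun t =>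
    (hsm.differentiable (by simp) t).hasDerivAt
  have hne : ∀ t, γ t ≠ 0 := fun t => ne_zero_of_PD (h.mem t)
  let L : ℝ → ℝ := fun t => Real.log ‖γ t‖
  have hL : ∀ t, L t < 0 := fun t => log_neg_of_PD (h.mem t)
  let ζ : ℝ → ℂ := fun t => deriv γ t / γ t
  have hgeo : ∀ t, deriv (deriv γ) t = (1 + ((L t)⁻¹ : ℝ)) * (1 / γ t) * deriv γ t ^ 2 := by
    intro t
    rw [h.geodesic t, fderiv_logrho hc (h.mem t), fderiv_logrho hc (h.mem t)]
    have e2 : (Complex.I / γ t).re = -(1 / γ t).im := by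
      have : Complex.I / γ t = Complex.I * (1 / γ t) := by ring
      rw [this, Complex.I_mul_re]
    rw [e2]
    have e3 : (1 / γ t : ℂ) = ((1 / γ t).re : ℂ) + ((1 / γ t).im : ℂ) * Complex.I :=
      (Complex.re_add_im _).symm
    conv_rhs => rw [e3]
    push_cast
    ring
  have hLd : ∀ t, HasDerivAt L (ζ t).re t := by
    intro t
    have h1 := (hasFDerivAt_lognorm (hne t)).comp_hasDerivAt t (hd1 t)
    refine h1.congr_deriv ?_
    simp only [ContinuousLinearMap.comp_apply, smul_apply, smul_eq_mul,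
      ContinuousLinearMap.id_apply, Complex.reCLM_apply, ζ]
    congr 1
    ring
  have hζd : ∀ t, HasDerivAt ζ (((L t)⁻¹ : ℝ) * ζ t ^ 2) t := by
    intro t
    have h1 := (hd2 t).div (hd1 t) (hne t)
    refine h1.congr_deriv ?_
    rw [hgeo t]
    simp only [ζ]
    have := hne t
    field_simp
    ring
  let k : ℝ → ℝ := fun t => (ζ t).re / L t
  have hkd : ∀ t, HasDerivAt k (-((ζ t).im ^ 2 / L t ^ 2)) t := by
    intro t
    have h1 := Complex.reCLM.hasFDerivAt.comp_hasDerivAt t (hζd t)
    have h2 : HasDerivAt (fun t => (ζ t).re) ((L t)⁻¹ * ((ζ t).re ^ 2 - (ζ t).im ^ 2)) t := by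
      refine h1.congr_deriv ?_
      rw [Complex.reCLM_apply, Complex.re_ofReal_mul, pow_two, Complex.mul_re]
      ring
    have h3 := h2.div (hLd t) (hL t).ne
    refine h3.congr_deriv ?_
    have := (hL t).ne
    field_simp
    ring
  have hanti : Antitone k := antitone_of_hasDerivAt_nonpos hkd (fun t =>
    neg_nonpos.2 (by positivity))
  have hdper : ∀ t, deriv γ (t + T) = deriv γ t := by
    intro t
    have h1 : HasDerivAt (fun s => γ (s + T)) (deriv γ (t + T)) t := by
      simpa using (hd1 (t + T)).comp_add_const t T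
    have h2 : (fun s => γ (s + T)) = γ := funext h.periodic
    rw [h2] at h1
    exact h1.unique (hd1 t)
  have hkper : k T = k 0 := by
    have e1 := h.periodic 0
    have e2 := hdper 0
    rw [zero_add] at e1 e2
    simp only [k, ζ, L, e1, e2]
  have hconst : ∀ t ∈ Icc 0 T, k t = k 0 := by
    intro t ht
    apply le_antisymm (hanti ht.1)
    rw [← hkper]
    exact hanti ht.2
  have hT := h.period_pos
  have hmid : T / 2 ∈ Ioo 0 T := ⟨by linarith, by linarith⟩
  have hloc : k =ᶠ[𝓝 (T / 2)] fun _ => k 0 := by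
    filter_upwards [isOpen_Ioo.mem_nhds hmid] with t ht
    exact hconst t (Ioo_subset_Icc_self ht)
  have h0 := (hkd (T / 2)).unique ((hasDerivAt_const (T / 2) (k 0)).congr_of_eventuallyEq hloc)
  have him : (ζ (T / 2)).im = 0 := by
    have hl := (hL (T / 2)).ne
    have h1 : (ζ (T / 2)).im ^ 2 / L (T / 2) ^ 2 = 0 := by linarith
    rcases div_eq_zero_iff.1 h1 with h2 | h2
    · exact pow_eq_zero_iff (two_ne_zero) |>.1 h2
    · exact absurd (pow_eq_zero_iff (two_ne_zero) |>.1 h2) hl
  -- Rolle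
  have hLper : L T = L 0 := by
    have e1 := h.periodic 0
    rw [zero_add] at e1
    simp only [L, e1]
  obtain ⟨ξ, hξ, hξ0⟩ := exists_hasDerivAt_eq_zero hT
    (fun t _ => (hLd t).continuousAt.continuousWithinAt) hLper.symm (fun t _ => hLd t)
  have hk0 : k 0 = 0 := by
    rw [← hconst ξ (Ioo_subset_Icc_self hξ)]
    simp only [k, hξ0, zero_div]
  have hre : (ζ (T / 2)).re = 0 := by
    have h1 := hconst (T / 2) (Ioo_subset_Icc_self hmid)
    rw [hk0] at h1
    rcases div_eq_zero_iff.1 h1 with h2 | h2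
    · exact h2
    · exact absurd h2 (hL (T / 2)).ne
  have hζ0 : ζ (T / 2) = 0 := Complex.ext hre him
  rcases div_eq_zero_iff.1 hζ0 with h2 | h2
  · exact h.regular _ h2
  · exact hne _ h2

end Pool.Agent.W593.Cusp
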