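import Pool.Agent.W593.Cusp.Mink

set_option autoImplicit false

open Set Filter Topology
open scoped ContDiff

namespace Pool.Agent.W593.Cusp

/-- The abstract data: `P` (the unit normal) and `Q` (the point of `ℍ³`) on the cusp region. -/
structure CuspData (a c : ℝ) (P Q : ℂ → Fin 4 → ℝ) : Prop where
  a_pos : 0 < a
  c_pos : 0 < c
  smoothP : ContDiffOn ℝ 2 P {z | a < z.im}
  smoothQ : ContDiffOn ℝ 1 Q {z | a < z.im}
  memQ : ∀ z : ℂ, a < z.im → Q z ∈ H3
  normP : ∀ z : ℂ, a < z.im → mink (P z) (P z) = 1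
  orth : ∀ z : ℂ, a < z.im → mink (Q z) (P z) = 0
  orthd : ∀ z : ℂ, a < z.im → ∀ v : ℂ, mink (Q z) (fderiv ℝ P z v) = 0
  metric : ∀ z : ℂ, a < z.im → ∀ v : ℂ,
    mink (fderiv ℝ P z v) (fderiv ℝ P z v) = (c / z.im * ‖v‖) ^ 2
  support : ∀ z w : ℂ, a < z.im → a < w.im → mink (Q z) (P w) ≤ 0
  period : ∀ z : ℂ, a < z.im → P (z + 1) = P z

variable {a c : ℝ} {P Q : ℂ → Fin 4 → ℝ}

theorem isOpen_dom (a : ℝ) : IsOpen {z : ℂ | a < z.im} := isOpen_lt continuous_const Complex.continuous_im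

/-- polarised form of the metric -/
theorem CuspData.polar (h : CuspData a c P Q) {z : ℂ} (hz : a < z.im) (u v : ℂ) :
    mink (fderiv ℝ P z u) (fderiv ℝ P z v) = (c / z.im) ^ 2 * (u.re * v.re + u.im * v.im) := by
  have h1 := h.metric z hz (u + v)
  have h2 := h.metric z hz u
  have h3 := h.metric z hz v
  rw [map_add, mink_add_left, mink_add_right, mink_add_right, mul_pow] at h1
  rw [mul_pow] at h2 h3
  rw [← Complex.normSq_eq_norm_sq, Complex.normSq_apply] at h1 h2 h3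
  rw [mink_comm (fderiv ℝ P z v) (fderiv ℝ P z u)] at h1
  simp only [Complex.add_re, Complex.add_im] at h1
  linarith

theorem CuspData.diffA (h : CuspData a c P Q) {z : ℂ} (hz : a < z.im) :
    HasFDerivAt (fderiv ℝ P) (fderiv ℝ (fderiv ℝ P) z) z := by
  have h1 : ContDiffAt ℝ 2 P z := h.smoothP.contDiffAt ((isOpen_dom a).mem_nhds hz)
  exact ((h1.fderiv_right (m := 1) (by norm_num)).differentiableAt (by norm_num)).hasFDerivAt

theorem CuspData.symm (h : CuspData a c P Q) {z : ℂ} (hz : a < z.im) (u v : ℂ) :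
    fderiv ℝ (fderiv ℝ P) z u v = fderiv ℝ (fderiv ℝ P) z v u := by
  have h1 : ContDiffAt ℝ 2 P z := h.smoothP.contDiffAt ((isOpen_dom a).mem_nhds hz)
  exact (h1.isSymmSndFDerivAt (by simp)) u v

/-- derivative of the metric -/
theorem CuspData.dmetric (h : CuspData a c P Q) {z : ℂ} (hz : a < z.im) (w u v : ℂ) :
    mink (fderiv ℝ (fderiv ℝ P) z w u) (fderiv ℝ P z v) +
      mink (fderiv ℝ P z u) (fderiv ℝ (fderiv ℝ P) z w v) =
      -2 * c ^ 2 * w.im / z.im ^ 3 * (u.re * v.re + u.im * v.im) := by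
  have hline : HasDerivAt (fun t : ℝ => z + (t : ℂ) * w) w 0 := by
    have h1 : HasDerivAt (fun t : ℝ => (t : ℂ)) 1 0 := Complex.ofRealCLM.hasDerivAt
    simpa using (h1.mul_const w).const_add z
  have hz0 : z + ((0:ℝ) : ℂ) * w = z := by simp
  have hA : HasDerivAt (fun t : ℝ => fderiv ℝ P (z + (t : ℂ) * w)) (fderiv ℝ (fderiv ℝ P) z w) 0 := by
    have := h.diffA hz
    rw [← hz0] at this
    have h2 := this.comp_hasDerivAt (0:ℝ) hline
    rw [hz0] at h2
    exact h2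
  have hu : HasDerivAt (fun t : ℝ => fderiv ℝ P (z + (t : ℂ) * w) u)
      (fderiv ℝ (fderiv ℝ P) z w u) 0 := by
    simpa using hA.clm_apply (hasDerivAt_const (0:ℝ) u)
  have hv : HasDerivAt (fun t : ℝ => fderiv ℝ P (z + (t : ℂ) * w) v)
      (fderiv ℝ (fderiv ℝ P) z w v) 0 := by
    simpa using hA.clm_apply (hasDerivAt_const (0:ℝ) v)
  have h1 := hasDerivAt_mink hu hv
  rw [hz0] at h1
  -- right hand side
  have him : HasDerivAt (fun t : ℝ => (z + (t : ℂ) * w).im) w.im 0 :=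
    Complex.imCLM.hasFDerivAt.comp_hasDerivAt (0:ℝ) hline
  have hne : z.im ≠ 0 := by
    have := h.a_pos
    intro h0
    rw [h0] at hz
    linarith
  have h2 : HasDerivAt (fun t : ℝ => (c / (z + (t : ℂ) * w).im) ^ 2 *
      (u.re * v.re + u.im * v.im)) (-2 * c ^ 2 * w.im / z.im ^ 3 *
      (u.re * v.re + u.im * v.im)) 0 := by
    have h3 := ((hasDerivAt_const (0:ℝ) c).div him (by simpa using hne)).pow 2
    have h4 := h3.mul_const (u.re * v.re + u.im * v.im)
    refine h4.congr_deriv ?_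
    simp only [Pi.div_apply, hz0]
    clear h1 him h3 h4
    generalize z.im = y at hne
    push_cast
    rw [pow_one]
    field_simp
    ring
  have hev : (fun t : ℝ => mink (fderiv ℝ P (z + (t : ℂ) * w) u)
      (fderiv ℝ P (z + (t : ℂ) * w) v)) =ᶠ[𝓝 0] (fun t : ℝ => (c / (z + (t : ℂ) * w).im) ^ 2 *
      (u.re * v.re + u.im * v.im)) := by
    have hopen : ∀ᶠ t : ℝ in 𝓝 0, a < (z + (t : ℂ) * w).im := by
      apply him.continuousAt.eventually_const_lt
      simpa using hz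
    filter_upwards [hopen] with t ht
    exact h.polar ht u v
  exact h1.unique (h2.congr_of_eventuallyEq hev)

/-- Koszul formula -/
theorem CuspData.koszul (h : CuspData a c P Q) {z : ℂ} (hz : a < z.im) (g v : ℂ) :
    mink (fderiv ℝ (fderiv ℝ P) z g g) (fderiv ℝ P z v) =
      -2 * c ^ 2 * g.im / z.im ^ 3 * (g.re * v.re + g.im * v.im) +
      c ^ 2 * v.im / z.im ^ 3 * (g.re * g.re + g.im * g.im) := by
  have h1 := h.dmetric hz g g v
  have h2 := h.dmetric hz v g g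
  rw [h.symm hz g v, mink_comm (fderiv ℝ P z g) (fderiv ℝ (fderiv ℝ P) z v g)] at h1
  rw [mink_comm (fderiv ℝ P z g) (fderiv ℝ (fderiv ℝ P) z v g)] at h2
  have h3 : mink (fderiv ℝ (fderiv ℝ P) z v g) (fderiv ℝ P z g) =
      -c ^ 2 * v.im / z.im ^ 3 * (g.re * g.re + g.im * g.im) := by
    have : -2 * c ^ 2 * v.im / z.im ^ 3 * (g.re * g.re + g.im * g.im) =
      2 * (-c ^ 2 * v.im / z.im ^ 3 * (g.re * g.re + g.im * g.im)) := by ring
    rw [this] at h2
    linarith
  rw [h3] at h1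
  have : -2 * c ^ 2 * g.im / z.im ^ 3 * (g.re * v.re + g.im * v.im) +
      c ^ 2 * v.im / z.im ^ 3 * (g.re * g.re + g.im * g.im) =
      -2 * c ^ 2 * g.im / z.im ^ 3 * (g.re * v.re + g.im * v.im) -
      (-c ^ 2 * v.im / z.im ^ 3 * (g.re * g.re + g.im * g.im)) := by ring
  rw [this]
  linarith

end Pool.Agent.W593.Cusp
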