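import Pool.Agent.W593.Cusp.Loop

set_option autoImplicit false

open Set Filter Topology
open scoped ContDiff

namespace Pool.Agent.W593.Cusp

variable {a c : ℝ} {P Q : ℂ → Fin 4 → ℝ}

/-- real part of the geodesic -/
noncomputable def gx (c R σ : ℝ) (s : ℝ) : ℝ := R * (Real.sinh (s / c - σ) / Real.cosh (s / c - σ))
/-- imaginary part of the geodesic -/
noncomputable def gy (c R σ : ℝ) (s : ℝ) : ℝ := R / Real.cosh (s / c - σ)
/-- the geodesic (a half circle) -/
noncomputable def gz (c R σ : ℝ) (s : ℝ) : ℂ := ⟨gx c R σ s, gy c R σ s⟩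

theorem gxy (c R σ s : ℝ) : gx c R σ s ^ 2 + gy c R σ s ^ 2 = R ^ 2 := by
  unfold gx gy
  have h := Real.cosh_sq (s / c - σ)
  have h0 := (Real.cosh_pos (s / c - σ)).ne'
  field_simp
  rw [h]

theorem hasDerivAt_arg (c σ s : ℝ) : HasDerivAt (fun s : ℝ => s / c - σ) (1 / c) s := by
  simpa using ((hasDerivAt_id s).div_const c).sub_const σ

theorem hasDerivAt_gy {c R : ℝ} (σ s : ℝ) (hc : c ≠ 0) (_hR : R ≠ 0) :
    HasDerivAt (gy c R σ) (-(gx c R σ s * gy c R σ s) / (R * c)) s := by
  have h0 := (Real.cosh_pos (s / c - σ)).ne'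
  have h1 := ((Real.hasDerivAt_cosh (s / c - σ)).comp s (hasDerivAt_arg c σ s))
  have h2 := (hasDerivAt_const s R).div h1 h0
  refine h2.congr_deriv ?_
  simp only [Function.comp_apply, gx, gy]
  field_simp
  ring

theorem hasDerivAt_gx {c R : ℝ} (σ s : ℝ) (hc : c ≠ 0) (hR : R ≠ 0) :
    HasDerivAt (gx c R σ) (gy c R σ s ^ 2 / (R * c)) s := by
  have h0 := (Real.cosh_pos (s / c - σ)).ne'
  have h1 := ((Real.hasDerivAt_cosh (s / c - σ)).comp s (hasDerivAt_arg c σ s))
  have h2 := ((Real.hasDerivAt_sinh (s / c - σ)).comp s (hasDerivAt_arg c σ s))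
  have h3 := (h2.div h1 h0).const_mul R
  refine h3.congr_deriv ?_
  have h4 := Real.cosh_sq (s / c - σ)
  simp only [Function.comp_apply, gy]
  clear h1 h2 h3
  generalize s / c - σ = θ at h0 h4
  field_simp
  linarith

/-- velocity -/
noncomputable def gv (c R σ : ℝ) (s : ℝ) : ℂ :=
  ⟨gy c R σ s ^ 2 / (R * c), -(gx c R σ s * gy c R σ s) / (R * c)⟩
/-- acceleration -/
noncomputable def ga (c R σ : ℝ) (s : ℝ) : ℂ :=
  ⟨-2 * gx c R σ s * gy c R σ s ^ 2 / (R * c) ^ 2,
    (gx c R σ s ^ 2 * gy c R σ s - gy c R σ s ^ 3) / (R * c) ^ 2⟩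

theorem hasDerivAt_mk {f g : ℝ → ℝ} {f' g' s : ℝ} (hf : HasDerivAt f f' s) (hg : HasDerivAt g g' s) :
    HasDerivAt (fun t => (⟨f t, g t⟩ : ℂ)) (⟨f', g'⟩ : ℂ) s := by
  have h1 := (Complex.ofRealCLM.hasFDerivAt (x := f s)).comp_hasDerivAt s hf
  have h2 := ((Complex.ofRealCLM.hasFDerivAt (x := g s)).comp_hasDerivAt s hg).mul_const Complex.I
  have h3 := h1.add h2
  have e1 : (fun t => (⟨f t, g t⟩ : ℂ)) =
      fun t => (Complex.ofRealCLM ∘ f) t + (Complex.ofRealCLM ∘ g) t * Complex.I := by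
    funext t
    apply Complex.ext <;> simp
  have e2 : (⟨f', g'⟩ : ℂ) = Complex.ofRealCLM f' + Complex.ofRealCLM g' * Complex.I := by
    apply Complex.ext <;> simp
  rw [e1, e2]
  exact h3

theorem hasDerivAt_gz {c R : ℝ} (σ s : ℝ) (hc : c ≠ 0) (hR : R ≠ 0) :
    HasDerivAt (gz c R σ) (gv c R σ s) s :=
  hasDerivAt_mk (hasDerivAt_gx σ s hc hR) (hasDerivAt_gy σ s hc hR)

theorem hasDerivAt_gv {c R : ℝ} (σ s : ℝ) (hc : c ≠ 0) (hR : R ≠ 0) :
    HasDerivAt (gv c R σ) (ga c R σ s) s := by
  have h1 := ((hasDerivAt_gy σ s hc hR).pow 2).div_const (R * c)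
  have h2 := (((hasDerivAt_gx σ s hc hR).mul (hasDerivAt_gy σ s hc hR)).neg).div_const (R * c)
  have h3 := hasDerivAt_mk h1 h2
  refine h3.congr_deriv ?_
  unfold ga
  congr 1
  · push_cast
    field_simp
  · field_simp
    ring

/-- the key computation along the geodesic -/
theorem CuspData.second (h : CuspData a c P Q) {R σ s : ℝ} (hR : 0 < R)
    (hs : a < gy c R σ s) (v : ℂ) :
    mink (fderiv ℝ (fderiv ℝ P) (gz c R σ s) (gv c R σ s) (gv c R σ s) +
      fderiv ℝ P (gz c R σ s) (ga c R σ s)) (fderiv ℝ P (gz c R σ s) v) = 0 := by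
  have hz : a < (gz c R σ s).im := hs
  rw [mink_add_left, h.koszul hz, h.polar hz]
  have hy : gy c R σ s ≠ 0 := by
    have := h.a_pos
    intro h0
    rw [h0] at hs
    linarith
  have hc := h.c_pos.ne'
  have hR' := hR.ne'
  simp only [gz, gv, ga]
  generalize gx c R σ s = x
  generalize gy c R σ s = y at hy
  field_simp
  ring

theorem CuspData.absurd (h : CuspData a c P Q) : False := by
  have ha := h.a_pos
  have hc := h.c_pos
  -- choice of σ
  obtain ⟨σ, hσ, hσ1, hσ2⟩ : ∃ σ : ℝ, 0 < σ ∧ 2 * c * σ < Real.pi ∧ 2 * a * Real.sinh σ < 1 := by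
    have h1 : ∀ᶠ σ : ℝ in 𝓝[>] 0, 2 * c * σ < Real.pi := by
      apply Filter.Eventually.filter_mono nhdsWithin_le_nhds
      have : Tendsto (fun σ : ℝ => 2 * c * σ) (𝓝 0) (𝓝 (2 * c * 0)) :=
        (continuous_const.mul continuous_id).tendsto 0
      apply this.eventually_lt_const
      simpa using Real.pi_pos
    have h2 : ∀ᶠ σ : ℝ in 𝓝[>] 0, 2 * a * Real.sinh σ < 1 := by
      apply Filter.Eventually.filter_mono nhdsWithin_le_nhds
      have : Tendsto (fun σ : ℝ => 2 * a * Real.sinh σ) (𝓝 0) (𝓝 (2 * a * Real.sinh 0)) :=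
        (continuous_const.mul Real.continuous_sinh).tendsto 0
      apply this.eventually_lt_const
      simp
    have h3 : ∀ᶠ σ : ℝ in 𝓝[>] 0, 0 < σ := eventually_mem_nhdsWithin
    obtain ⟨σ, h4⟩ := (h1.and (h2.and h3)).exists
    exact ⟨σ, h4.2.2, h4.1, h4.2.1⟩
  have hsh : 0 < Real.sinh σ := Real.sinh_pos_iff.2 hσ
  have hch : 0 < Real.cosh σ := Real.cosh_pos σ
  let R : ℝ := Real.cosh σ / (2 * Real.sinh σ)
  have hR : 0 < R := by positivity
  let l : ℝ := 2 * c * σ
  have hl : 0 < l := by positivity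
  let γ := gz c R σ
  -- the geodesic stays in the cusp region
  have hcosh : ∀ s ∈ Icc 0 l, Real.cosh (s / c - σ) ≤ Real.cosh σ := by
    intro s hs
    apply Real.cosh_le_cosh.2
    rw [abs_of_pos hσ, abs_le]
    have h1 : 0 ≤ s / c := div_nonneg hs.1 hc.le
    have h2 : s / c ≤ 2 * σ := by
      rw [div_le_iff₀ hc]
      have := hs.2
      simp only [l] at this
      linarith
    constructor <;> linarith
  have hya : ∀ s ∈ Icc 0 l, a < gy c R σ s := by
    intro s hs
    have h1 := hcosh s hs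
    have h2 : R / Real.cosh σ ≤ gy c R σ s := by
      unfold gy
      exact div_le_div_of_nonneg_left hR.le (Real.cosh_pos _) h1
    have h3 : R / Real.cosh σ = 1 / (2 * Real.sinh σ) := by
      simp only [R]; field_simp
    rw [h3] at h2
    have h4 : a < 1 / (2 * Real.sinh σ) := by
      rw [lt_div_iff₀ (by positivity)]
      linarith
    linarith
  have hcy : Continuous (gy c R σ) :=
    continuous_iff_continuousAt.2 fun s => (hasDerivAt_gy σ s hc.ne' hR.ne').continuousAt
  -- curves in Minkowski space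
  let p : ℝ → Fin 4 → ℝ := fun s => P (γ s)
  let q : ℝ → Fin 4 → ℝ := fun s => Q (γ s)
  let p' : ℝ → Fin 4 → ℝ := fun s => fderiv ℝ P (γ s) (gv c R σ s)
  let p'' : ℝ → Fin 4 → ℝ := fun s =>
    fderiv ℝ (fderiv ℝ P) (γ s) (gv c R σ s) (gv c R σ s) + fderiv ℝ P (γ s) (ga c R σ s)
  let q' : ℝ → Fin 4 → ℝ := fun s => fderiv ℝ Q (γ s) (gv c R σ s)
  have hp : ∀ s, a < gy c R σ s → HasDerivAt p (p' s) s := by
    intro s hs
    have h1 : ContDiffAt ℝ 2 P (γ s) := h.smoothP.contDiffAt ((isOpen_dom a).mem_nhds hs)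
    exact (h1.differentiableAt (by norm_num)).hasFDerivAt.comp_hasDerivAt s
      (hasDerivAt_gz σ s hc.ne' hR.ne')
  have hq : ∀ s, a < gy c R σ s → HasDerivAt q (q' s) s := by
    intro s hs
    have h1 : ContDiffAt ℝ 1 Q (γ s) := h.smoothQ.contDiffAt ((isOpen_dom a).mem_nhds hs)
    exact (h1.differentiableAt (by norm_num)).hasFDerivAt.comp_hasDerivAt s
      (hasDerivAt_gz σ s hc.ne' hR.ne')
  have hp' : ∀ s, a < gy c R σ s → HasDerivAt p' (p'' s) s := by
    intro s hs
    have h1 := (h.diffA (z := γ s) hs).comp_hasDerivAt s (hasDerivAt_gz σ s hc.ne' hR.ne')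
    exact h1.clm_apply (hasDerivAt_gv σ s hc.ne' hR.ne')
  have hnear : ∀ s, a < gy c R σ s → ∀ᶠ t in 𝓝 s, a < gy c R σ t := fun s hs =>
    hcy.continuousAt.eventually_const_lt hs
  -- algebraic identities
  have e1 : ∀ s, a < gy c R σ s → mink (p s) (p s) = 1 := fun s hs => h.normP _ hs
  have e2 : ∀ s, a < gy c R σ s → mink (q s) (p s) = 0 := fun s hs => h.orth _ hs
  have e3 : ∀ s, a < gy c R σ s → mink (p' s) (q s) = 0 := fun s hs => by
    rw [mink_comm]; exact h.orthd _ hs _
  have e4 : ∀ s, a < gy c R σ s → ∀ v, mink (p s) (fderiv ℝ P (γ s) v) = 0 := by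
    intro s hs v
    have hzs : a < (γ s).im := hs
    have hline : HasDerivAt (fun t : ℝ => γ s + (t : ℂ) * v) v 0 := by
      have h1 : HasDerivAt (fun t : ℝ => (t : ℂ)) 1 0 := Complex.ofRealCLM.hasDerivAt
      simpa using (h1.mul_const v).const_add (γ s)
    have hz0 : γ s + ((0:ℝ) : ℂ) * v = γ s := by simp
    have hPd : HasFDerivAt P (fderiv ℝ P (γ s)) (γ s + ((0:ℝ) : ℂ) * v) := by
      rw [hz0]
      have h1 : ContDiffAt ℝ 2 P (γ s) := h.smoothP.contDiffAt ((isOpen_dom a).mem_nhds hs)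
      exact (h1.differentiableAt (by norm_num)).hasFDerivAt
    have h2 := hPd.comp_hasDerivAt (0:ℝ) hline
    have h3 := hasDerivAt_mink h2 h2
    simp only [Function.comp_apply, hz0] at h3
    have hopen : ∀ᶠ t : ℝ in 𝓝 0, a < (γ s + (t : ℂ) * v).im := by
      have him : ContinuousAt (fun t : ℝ => (γ s + (t : ℂ) * v).im) 0 :=
        Complex.continuous_im.continuousAt.comp hline.continuousAt
      apply him.eventually_const_lt
      simpa using hzs
    have h4 : HasDerivAt (fun t : ℝ => mink (P (γ s + (t : ℂ) * v)) (P (γ s + (t : ℂ) * v))) 0 0 :=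
      (hasDerivAt_const (0:ℝ) (1:ℝ)).congr_of_eventuallyEq (by
        filter_upwards [hopen] with t ht
        exact h.normP _ ht)
    have h5 := h3.unique h4
    rw [mink_comm (fderiv ℝ P (γ s) v)] at h5
    show mink (P (γ s)) _ = 0
    linarith
  have e5 : ∀ s, a < gy c R σ s → mink (p' s) (p' s) = 1 := by
    intro s hs
    have h1 := h.polar (z := γ s) hs (gv c R σ s) (gv c R σ s)
    show mink (fderiv ℝ P (γ s) (gv c R σ s)) (fderiv ℝ P (γ s) (gv c R σ s)) = 1
    rw [h1]
    have hxy := gxy c R σ s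
    have hy : gy c R σ s ≠ 0 := by
      intro h0; rw [h0] at hs; linarith
    show (c / gy c R σ s) ^ 2 * _ = 1
    simp only [gv]
    have : (c / gy c R σ s) ^ 2 *
        (gy c R σ s ^ 2 / (R * c) * (gy c R σ s ^ 2 / (R * c)) +
          -(gx c R σ s * gy c R σ s) / (R * c) * (-(gx c R σ s * gy c R σ s) / (R * c))) =
        (gx c R σ s ^ 2 + gy c R σ s ^ 2) / R ^ 2 := by
      field_simp
      ring
    rw [this, hxy]
    field_simp
  -- `⟨p'', q⟩ = - ⟨p', q'⟩`
  have e6 : ∀ s, a < gy c R σ s → mink (p'' s) (q s) = - mink (p' s) (q' s) := by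
    intro s hs
    have h1 := hasDerivAt_mink (hp' s hs) (hq s hs)
    have h2 : HasDerivAt (fun t => mink (p' t) (q t)) 0 s :=
      (hasDerivAt_const s (0:ℝ)).congr_of_eventuallyEq (by
        filter_upwards [hnear s hs] with t ht
        exact e3 t ht)
    have := h1.unique h2
    linarith
  have e7 : ∀ s, a < gy c R σ s → mink (p'' s) (p s) = -1 := by
    intro s hs
    have h1 := hasDerivAt_mink (hp' s hs) (hp s hs)
    have h2 : HasDerivAt (fun t => mink (p' t) (p t)) 0 s :=
      (hasDerivAt_const s (0:ℝ)).congr_of_eventuallyEq (by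
        filter_upwards [hnear s hs] with t ht
        rw [mink_comm]
        exact e4 t ht _)
    have := h1.unique h2
    rw [e5 s hs] at this
    linarith
  have e8 : ∀ s, a < gy c R σ s → ∀ v, mink (p'' s) (fderiv ℝ P (γ s) v) = 0 := fun s hs v =>
    h.second hR hs v
  -- convexity
  have e9 : ∀ s, a < gy c R σ s → 0 ≤ mink (p' s) (q' s) := by
    intro s hs
    have h1 := (hasDerivAt_iff_tendsto_slope.1 (hp s hs))
    have h2 := (hasDerivAt_iff_tendsto_slope.1 (hq s hs))
    have hcont : Continuous (fun w : (Fin 4 → ℝ) × (Fin 4 → ℝ) => mink w.1 w.2) := by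
      unfold mink; fun_prop
    have h3 := (hcont.tendsto (p' s, q' s)).comp (h1.prodMk_nhds h2)
    refine ge_of_tendsto h3 ?_
    have h4 : ∀ᶠ t in 𝓝[≠] s, a < gy c R σ t := (hnear s hs).filter_mono nhdsWithin_le_nhds
    filter_upwards [h4] with t ht
    simp only [Function.comp_apply, slope_def_module]
    rw [mink_smul_left, mink_smul_right, ← mul_assoc]
    apply mul_nonneg (mul_self_nonneg _)
    rw [mink_sub_left, mink_sub_right, mink_sub_right]
    have f1 := e2 t ht
    have f2 := e2 s hs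
    have f3 := h.support (γ s) (γ t) hs ht
    have f4 := h.support (γ t) (γ s) ht hs
    rw [mink_comm] at f1 f2
    rw [mink_comm] at f3 f4
    show 0 ≤ mink (P (γ t)) (Q (γ t)) - mink (P (γ t)) (Q (γ s)) -
      (mink (P (γ s)) (Q (γ t)) - mink (P (γ s)) (Q (γ s)))
    have f1' : mink (P (γ t)) (Q (γ t)) = 0 := f1
    have f2' : mink (P (γ s)) (Q (γ s)) = 0 := f2
    rw [f1', f2']
    linarith
  -- the structure equation
  have e10 : ∀ s, a < gy c R σ s → p'' s + p s - mink (p' s) (q' s) • q s = 0 := by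
    intro s hs
    have hzs : a < (γ s).im := hs
    have hyp : 0 < (γ s).im := ha.trans hzs
    have hQ := h.memQ (γ s) hzs
    have hQQ : mink (q s) (q s) = -1 := hQ.1
    have hn1 : mink (fderiv ℝ P (γ s) 1) (fderiv ℝ P (γ s) 1) = (c / (γ s).im) ^ 2 := by
      rw [h.polar hzs]; simp
    have hn2 : mink (fderiv ℝ P (γ s) Complex.I) (fderiv ℝ P (γ s) Complex.I) =
        (c / (γ s).im) ^ 2 := by
      rw [h.polar hzs]; simp
    have hn12 : mink (fderiv ℝ P (γ s) 1) (fderiv ℝ P (γ s) Complex.I) = 0 := by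
      rw [h.polar hzs]; simp
    have hpos : (c / (γ s).im) ^ 2 ≠ 0 := by positivity
    have f2 : mink (p s) (q s) = 0 := by rw [mink_comm]; exact e2 s hs
    have f3 : ∀ v, mink (q s) (fderiv ℝ P (γ s) v) = 0 := fun v => h.orthd _ hs v
    apply eq_zero_of_orthogonal
      (b := ![p s, q s, fderiv ℝ P (γ s) 1, fderiv ℝ P (γ s) Complex.I])
    · intro i j hij
      fin_cases i <;> fin_cases j <;> simp at hij ⊢
      · exact f2
      · exact e4 s hs _
      · exact e4 s hs _
      · rw [mink_comm]; exact f2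
      · exact f3 _
      · exact f3 _
      · rw [mink_comm]; exact e4 s hs _
      · rw [mink_comm]; exact f3 _
      · exact hn12
      · rw [mink_comm]; exact e4 s hs _
      · rw [mink_comm]; exact f3 _
      · rw [mink_comm]; exact hn12
    · intro i
      fin_cases i <;> simp
      · rw [e1 s hs]; norm_num
      · rw [hQQ]; norm_num
      · rw [hn1]; exact hpos
      · rw [hn2]; exact hpos
    · intro i
      rw [mink_sub_left, mink_add_left, mink_smul_left]
      fin_cases i <;> simp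
      · rw [e7 s hs, e1 s hs, mink_comm (q s), f2]; ring
      · rw [e6 s hs, f2, hQQ]; ring
      · rw [e8 s hs, e4 s hs, f3]; ring
      · rw [e8 s hs, e4 s hs, f3]; ring
  -- endpoints
  have hz0 : a < gy c R σ 0 := hya 0 ⟨le_rfl, hl.le⟩
  have hend : γ l = γ 0 + 1 := by
    show gz c R σ l = gz c R σ 0 + 1
    have h1 : l / c - σ = σ := by simp only [l]; field_simp; ring
    have h2 : (0:ℝ) / c - σ = -σ := by simp
    apply Complex.ext
    · simp only [gz, gx, h1, h2, Real.sinh_neg, Real.cosh_neg, Complex.add_re, Complex.one_re, R]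
      field_simp
      ring
    · simp only [gz, gy, h1, h2, Real.cosh_neg, Complex.add_im, Complex.one_im, add_zero]
  have hpl : p l = p 0 := by
    show P (γ l) = P (γ 0)
    rw [hend]
    exact h.period _ hz0
  -- the vector `v`
  let v : Fin 4 → ℝ := (1 - Real.cos l) • p 0 - Real.sin l • p' 0
  let n : ℝ := (1 - Real.cos l) ^ 2 + Real.sin l ^ 2
  have hlpi : l < Real.pi := hσ1
  have hsin : 0 < Real.sin l := Real.sin_pos_of_pos_of_lt_pi hl hlpi
  have hn : 0 < n := by positivity
  have e4' : mink (p 0) (p' 0) = 0 := e4 0 hz0 _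
  have hvv : mink v v = n := by
    simp only [v, mink_sub_left, mink_sub_right, mink_smul_left, mink_smul_right]
    rw [mink_comm (p' 0) (p 0), e4', e1 0 hz0, e5 0 hz0]
    simp only [n]; ring
  have hqv : mink (q 0) v = 0 := by
    simp only [v, mink_sub_right, mink_smul_right]
    rw [e2 0 hz0, mink_comm (q 0) (p' 0), e3 0 hz0]; ring
  let w : Fin 4 → ℝ := Real.sqrt n • q 0 + v
  have hQ0 : q 0 ∈ H3 := h.memQ _ hz0
  have hww : mink w w = 0 := by
    simp only [w, mink_add_left, mink_add_right, mink_smul_left, mink_smul_right]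
    rw [mink_comm v (q 0), hqv, hvv, hQ0.1]
    have := Real.mul_self_sqrt hn.le
    linarith
  have hqw : mink (q 0) w < 0 := by
    simp only [w, mink_add_right, mink_smul_right]
    rw [hqv, hQ0.1]
    have := Real.sqrt_pos.2 hn
    linarith
  have hw0 : 0 ≤ w 0 := future_of_mink_neg hQ0 hww.le hqw
  have hvw : mink v w = n := by
    simp only [w, mink_add_right, mink_smul_right]
    rw [mink_comm v (q 0), hqv, hvv]; ring
  -- Sturm comparison
  have hst := sturm (g := fun s => mink (p s) w) (g' := fun s => mink (p' s) w)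
    (g'' := fun s => mink (p'' s) w) hl.le hlpi.le
    (fun s hs => by
      have := hasDerivAt_mink (hp s (hya s hs)) (hasDerivAt_const s w)
      simpa [mink_zero_right] using this)
    (fun s hs => by
      have := hasDerivAt_mink (hp' s (hya s hs)) (hasDerivAt_const s w)
      simpa [mink_zero_right] using this)
    (fun s hs => by
      have h1 := e10 s (hya s hs)
      have h2 : mink (p'' s + p s - mink (p' s) (q' s) • q s) w = 0 := by
        rw [h1, mink_zero_left]
      rw [mink_sub_left, mink_add_left, mink_smul_left] at h2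
      have h3 : mink (q s) w ≤ 0 := mink_nonpos (h.memQ _ (hya s hs)) hww.le hw0
      have h4 := mul_nonpos_of_nonneg_of_nonpos (e9 s (hya s hs)) h3
      show mink (p'' s) w + mink (p s) w ≤ 0
      linarith)
  simp only [hpl] at hst
  have hvw' : mink v w = (1 - Real.cos l) * mink (p 0) w - Real.sin l * mink (p' 0) w := by
    simp only [v]
    rw [mink_sub_left, mink_smul_left, mink_smul_left]
  rw [hvw] at hvw'
  nlinarith

end Pool.Agent.W593.Cusp
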