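import Pool.Agent.W593.Cusp.Defs

set_option autoImplicit false

open Set Filter Topology
open scoped ContDiff

namespace Pool.Agent.W593.Cusp

theorem mink_comm (x y : Fin 4 → ℝ) : mink x y = mink y x := by unfold mink; ring
theorem mink_add_left (x y z : Fin 4 → ℝ) : mink (x + y) z = mink x z + mink y z := by
  simp only [mink, Pi.add_apply]; ring
theorem mink_sub_left (x y z : Fin 4 → ℝ) : mink (x - y) z = mink x z - mink y z := by
  simp only [mink, Pi.sub_apply]; ring
theorem mink_smul_left (a : ℝ) (x z : Fin 4 → ℝ) : mink (a • x) z = a * mink x z := by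
  simp only [mink, Pi.smul_apply, smul_eq_mul]; ring
theorem mink_add_right (x y z : Fin 4 → ℝ) : mink z (x + y) = mink z x + mink z y := by
  simp only [mink, Pi.add_apply]; ring
theorem mink_sub_right (x y z : Fin 4 → ℝ) : mink z (x - y) = mink z x - mink z y := by
  simp only [mink, Pi.sub_apply]; ring
theorem mink_smul_right (a : ℝ) (x z : Fin 4 → ℝ) : mink z (a • x) = a * mink z x := by
  simp only [mink, Pi.smul_apply, smul_eq_mul]; ring
theorem mink_zero_left (z : Fin 4 → ℝ) : mink 0 z = 0 := by simp [mink]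
theorem mink_zero_right (z : Fin 4 → ℝ) : mink z 0 = 0 := by simp [mink]

/-- The product of a point of `ℍ³` and a future causal vector is nonpositive. -/
theorem mink_nonpos {q w : Fin 4 → ℝ} (hq : q ∈ H3) (hw : mink w w ≤ 0) (hw0 : 0 ≤ w 0) :
    mink q w ≤ 0 := by
  obtain ⟨h1, h2⟩ := hq
  unfold mink at *
  have hcs : (q 1 * w 1 + q 2 * w 2 + q 3 * w 3) ^ 2 ≤
      (q 1 ^ 2 + q 2 ^ 2 + q 3 ^ 2) * (w 1 ^ 2 + w 2 ^ 2 + w 3 ^ 2) := by
    nlinarith [sq_nonneg (q 1 * w 2 - q 2 * w 1), sq_nonneg (q 1 * w 3 - q 3 * w 1),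
      sq_nonneg (q 2 * w 3 - q 3 * w 2)]
  have h3 : (q 1 ^ 2 + q 2 ^ 2 + q 3 ^ 2) * (w 1 ^ 2 + w 2 ^ 2 + w 3 ^ 2) ≤
      (q 0 * w 0) ^ 2 := by
    have e1 : q 1 ^ 2 + q 2 ^ 2 + q 3 ^ 2 ≤ q 0 ^ 2 := by nlinarith
    have e2 : w 1 ^ 2 + w 2 ^ 2 + w 3 ^ 2 ≤ w 0 ^ 2 := by nlinarith
    have : (q 1 ^ 2 + q 2 ^ 2 + q 3 ^ 2) * (w 1 ^ 2 + w 2 ^ 2 + w 3 ^ 2) ≤ q 0 ^ 2 * w 0 ^ 2 :=
      mul_le_mul e1 e2 (by positivity) (by positivity)
    nlinarith
  have h4 : |q 1 * w 1 + q 2 * w 2 + q 3 * w 3| ≤ q 0 * w 0 :=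
    abs_le_of_sq_le_sq (hcs.trans h3) (by positivity)
  have := (abs_le.1 h4).2
  linarith

/-- A causal vector `w` with `⟨w, q⟩ < 0` for some `q ∈ ℍ³` points to the future. -/
theorem future_of_mink_neg {q w : Fin 4 → ℝ} (hq : q ∈ H3) (hw : mink w w ≤ 0)
    (h : mink q w < 0) : 0 ≤ w 0 := by
  by_contra hneg
  push Not at hneg
  have h1 : mink q (-w) ≤ 0 := by
    apply mink_nonpos hq
    · have : mink (-w) (-w) = mink w w := by unfold mink; simp
      rw [this]; exact hw
    · simp only [Pi.neg_apply]; linarith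
  have h2 : mink q (-w) = - mink q w := by unfold mink; simp; ring
  linarith

/-- Four pairwise orthogonal non-isotropic vectors span: a vector orthogonal to them vanishes. -/
theorem eq_zero_of_orthogonal {b : Fin 4 → Fin 4 → ℝ} (hoff : ∀ i j, i ≠ j → mink (b i) (b j) = 0)
    (hdiag : ∀ i, mink (b i) (b i) ≠ 0) {u : Fin 4 → ℝ} (hu : ∀ i, mink u (b i) = 0) : u = 0 := by
  have hli : LinearIndependent ℝ b := by
    rw [Fintype.linearIndependent_iff]
    intro g hg i
    have h1 : mink (∑ j, g j • b j) (b i) = g i * mink (b i) (b i) := by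
      have : ∀ s : Finset (Fin 4), mink (∑ j ∈ s, g j • b j) (b i) =
          ∑ j ∈ s, g j * mink (b j) (b i) := by
        intro s
        induction s using Finset.induction_on with
        | empty => simp [mink_zero_left]
        | insert a s ha ih => rw [Finset.sum_insert ha, Finset.sum_insert ha, mink_add_left, ih,
            mink_smul_left]
      rw [this, Finset.sum_eq_single i]
      · intro j _ hj
        rw [hoff j i hj, mul_zero]
      · intro h; exact absurd (Finset.mem_univ i) h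
    rw [hg, mink_zero_left] at h1
    exact (mul_eq_zero.1 h1.symm).resolve_right (hdiag i)
  have hspan : Submodule.span ℝ (Set.range b) = ⊤ :=
    hli.span_eq_top_of_card_eq_finrank (by simp)
  -- u is orthogonal to everything
  have hall : ∀ v : Fin 4 → ℝ, mink u v = 0 := by
    intro v
    have hv : v ∈ Submodule.span ℝ (Set.range b) := by rw [hspan]; trivial
    induction hv using Submodule.span_induction with
    | mem x hx => obtain ⟨i, rfl⟩ := hx; exact hu i
    | zero => exact mink_zero_right u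
    | add x y _ _ hx hy => rw [mink_add_right, hx, hy, add_zero]
    | smul a x _ hx => rw [mink_smul_right, hx, mul_zero]
  funext i
  have h0 := hall (Pi.single i 1)
  fin_cases i <;> simp [mink] at h0 <;> simp [h0]

theorem hasDerivAt_mink {p q : ℝ → Fin 4 → ℝ} {p' q' : Fin 4 → ℝ} {t : ℝ}
    (hp : HasDerivAt p p' t) (hq : HasDerivAt q q' t) :
    HasDerivAt (fun s => mink (p s) (q s)) (mink p' (q t) + mink (p t) q') t := by
  have hp' := hasDerivAt_pi.1 hp
  have hq' := hasDerivAt_pi.1 hq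
  have h := ((((hp' 1).mul (hq' 1)).add ((hp' 2).mul (hq' 2))).add ((hp' 3).mul (hq' 3))).sub
    ((hp' 0).mul (hq' 0))
  have e : mink p' (q t) + mink (p t) q' = p' 1 * q t 1 + p t 1 * q' 1 +
      (p' 2 * q t 2 + p t 2 * q' 2) + (p' 3 * q t 3 + p t 3 * q' 3) -
      (p' 0 * q t 0 + p t 0 * q' 0) := by unfold mink; ring
  rw [e]
  exact h

/-- Sturm comparison: if `g'' + g ≤ 0` on `[0, ℓ]`, `ℓ ≤ π`, then
`g ℓ ≤ cos ℓ * g 0 + sin ℓ * g' 0`. -/
theorem sturm {g g' g'' : ℝ → ℝ} {l : ℝ} (hl : 0 ≤ l) (hl' : l ≤ Real.pi)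
    (h1 : ∀ s ∈ Icc 0 l, HasDerivAt g (g' s) s) (h2 : ∀ s ∈ Icc 0 l, HasDerivAt g' (g'' s) s)
    (h : ∀ s ∈ Icc 0 l, g'' s + g s ≤ 0) :
    g l ≤ Real.cos l * g 0 + Real.sin l * g' 0 := by
  let k : ℝ → ℝ := fun s => g' s * Real.sin (l - s) + g s * Real.cos (l - s)
  have hk : ∀ s ∈ Icc 0 l, HasDerivAt k ((g'' s + g s) * Real.sin (l - s)) s := by
    intro s hs
    have hsin : HasDerivAt (fun s : ℝ => Real.sin (l - s)) (-Real.cos (l - s)) s := by
      have := (Real.hasDerivAt_sin (l - s)).comp s ((hasDerivAt_const s l).sub (hasDerivAt_id s))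
      simpa [Function.comp_def] using this
    have hcos : HasDerivAt (fun s : ℝ => Real.cos (l - s)) (Real.sin (l - s)) s := by
      have := (Real.hasDerivAt_cos (l - s)).comp s ((hasDerivAt_const s l).sub (hasDerivAt_id s))
      simpa [Function.comp_def] using this
    have := ((h2 s hs).mul hsin).add ((h1 s hs).mul hcos)
    exact this.congr_deriv (by ring)
  have hanti : AntitoneOn k (Icc 0 l) := by
    apply antitoneOn_of_deriv_nonpos (convex_Icc 0 l)
    · intro s hs; exact (hk s hs).continuousAt.continuousWithinAt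
    · intro s hs
      rw [interior_Icc] at hs
      exact (hk s (Ioo_subset_Icc_self hs)).differentiableAt.differentiableWithinAt
    · intro s hs
      rw [interior_Icc] at hs
      rw [(hk s (Ioo_subset_Icc_self hs)).deriv]
      apply mul_nonpos_of_nonpos_of_nonneg (h s (Ioo_subset_Icc_self hs))
      apply Real.sin_nonneg_of_nonneg_of_le_pi <;> linarith [hs.1, hs.2]
  have := hanti (left_mem_Icc.2 hl) (right_mem_Icc.2 hl) hl
  simp only [k, sub_zero, sub_self, Real.sin_zero, Real.cos_zero, mul_zero, mul_one, zero_add]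
    at this
  linarith

end Pool.Agent.W593.Cusp
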