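import Pool.Agent.W593.Cusp.Main

set_option autoImplicit false

open Set Filter Topology
open scoped ContDiff

namespace Pool.Agent.W593.Cusp

/-- A surface with a cusp is not (isometric to) a piece of a convex surface of `ℍ³` with its third
fundamental form. -/
theorem not_third {U : Set ℂ} {ρ : ℂ → ℝ} (hU : IsPlanarSurface U ρ) (hc : HasCusp U ρ) :
    ¬ IsThirdFundamentalForm U ρ := by
  rintro ⟨C, X, N, hC, -, hX, hN, hz⟩
  obtain ⟨a, c, F, ha, hcpos, hF, hFz⟩ := hc
  have hopen := hU.isOpen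
  have hmaps : MapsTo F {z | a < z.im} U := fun z hz => (hFz z hz).1
  have hFd : ∀ z : ℂ, a < z.im → HasFDerivAt F (fderiv ℝ F z) z := fun z hz =>
    ((hF.contDiffAt ((isOpen_dom a).mem_nhds hz)).differentiableAt (by simp)).hasFDerivAt
  have hNd : ∀ z ∈ U, HasFDerivAt N (fderiv ℝ N z) z := fun z hz =>
    ((hN.contDiffAt (hopen.mem_nhds hz)).differentiableAt (by simp)).hasFDerivAt
  have hXd : ∀ z ∈ U, HasFDerivAt X (fderiv ℝ X z) z := fun z hz =>
    ((hX.contDiffAt (hopen.mem_nhds hz)).differentiableAt (by simp)).hasFDerivAt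
  have hP : ∀ z : ℂ, a < z.im → ∀ v, fderiv ℝ (fun z => N (F z)) z v =
      fderiv ℝ N (F z) (fderiv ℝ F z v) := by
    intro z hz v
    have := ((hNd (F z) (hmaps hz)).comp z (hFd z hz)).fderiv
    have h2 : fderiv ℝ (fun z => N (F z)) z = (fderiv ℝ N (F z)).comp (fderiv ℝ F z) := this
    rw [h2]; rfl
  -- `⟨X, dN⟩ = 0`
  have hXN : ∀ z ∈ U, ∀ u : ℂ, mink (X z) (fderiv ℝ N z u) = 0 := by
    intro z hzU u
    have hline : HasDerivAt (fun t : ℝ => z + (t : ℂ) * u) u 0 := by
      have h1 : HasDerivAt (fun t : ℝ => (t : ℂ)) 1 0 := Complex.ofRealCLM.hasDerivAt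
      simpa using (h1.mul_const u).const_add z
    have hz0 : z + ((0:ℝ) : ℂ) * u = z := by simp
    have h1 := hNd z hzU
    have h2 := hXd z hzU
    rw [← hz0] at h1 h2
    have h3 := hasDerivAt_mink (h2.comp_hasDerivAt (0:ℝ) hline) (h1.comp_hasDerivAt (0:ℝ) hline)
    simp only [Function.comp_apply, hz0] at h3
    have hev : ∀ᶠ t : ℝ in 𝓝 0, z + (t : ℂ) * u ∈ U := by
      apply hline.continuousAt.eventually_mem
      rw [hz0]
      exact hopen.mem_nhds hzU
    have h4 : HasDerivAt (fun t : ℝ => mink (X (z + (t : ℂ) * u)) (N (z + (t : ℂ) * u))) 0 0 :=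
      (hasDerivAt_const (0:ℝ) (0:ℝ)).congr_of_eventuallyEq (by
        filter_upwards [hev] with t ht
        exact (hz _ ht).2.2.2.1)
    have h5 := h3.unique h4
    rw [(hz z hzU).2.2.2.2.1 u] at h5
    linarith
  have hdata : CuspData a c (fun z => N (F z)) (fun z => X (F z)) :=
    { a_pos := ha
      c_pos := hcpos
      smoothP := (hN.comp hF hmaps).of_le ENat.LEInfty.out
      smoothQ := (hX.comp hF hmaps).of_le ENat.LEInfty.out
      memQ := fun z hzz => hC.1 (hz _ (hmaps hzz)).1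
      normP := fun z hzz => (hz _ (hmaps hzz)).2.2.1
      orth := fun z hzz => (hz _ (hmaps hzz)).2.2.2.1
      orthd := fun z hzz v => by
        rw [hP z hzz]
        exact hXN _ (hmaps hzz) _
      metric := fun z hzz v => by
        rw [hP z hzz, (hz _ (hmaps hzz)).2.2.2.2.2.2, (hFz z hzz).2.2]
      support := fun z w hzz hww => (hz _ (hmaps hww)).2.2.2.2.2.1 _ (hz _ (hmaps hzz)).1
      period := fun z hzz => by
        show N (F (z + 1)) = N (F z)
        rw [(hFz z hzz).2.1] }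
  exact hdata.absurd

end Pool.Agent.W593.Cusp
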